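import Mathlib

/-!
# The additivity number of `Split(Ω, Λ)` is at most the cofinality of the ultrafilter number

All sets of reals of cardinality less than the ultrafilter number `𝔲` satisfy `Split(Ω, Λ)`, and a
set of reals which codes a base of size `𝔲` of a nonprincipal ultrafilter does not. Cutting the
latter set into `cf 𝔲` smaller pieces one gets `add(Split(Ω, Λ)) ≤ cf 𝔲 ≤ 𝔲`.
-/

set_option autoImplicit false

open Cardinal Set Topology

namespace Pool.Agent.Results.MP_312f56_gt.AddSplitUltrafilter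

/-- `𝒰` is an open cover of `X`: a family of relatively open subsets of `X` with union `X`, which
does not contain `X` itself. -/
def OpenCover (X : Set ℝ) (𝒰 : Set (Set ℝ)) : Prop :=
  (∀ U ∈ 𝒰, ∃ O, IsOpen O ∧ U = X ∩ O) ∧ ⋃₀ 𝒰 = X ∧ X ∉ 𝒰

/-- `𝒰 ∈ Λ(X)`: an open cover such that every point of `X` is in infinitely many members. -/
def LargeCover (X : Set ℝ) (𝒰 : Set (Set ℝ)) : Prop :=
  OpenCover X 𝒰 ∧ ∀ x ∈ X, {U | U ∈ 𝒰 ∧ x ∈ U}.Infinite

/-- `𝒰 ∈ Ω(X)`: an open cover such that every finite subset of `X` is contained in a member. -/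
def OmegaCover (X : Set ℝ) (𝒰 : Set (Set ℝ)) : Prop :=
  OpenCover X 𝒰 ∧ ∀ F : Set ℝ, F.Finite → F ⊆ X → ∃ U ∈ 𝒰, F ⊆ U

/-- `X` satisfies `Split(Ω, Λ)`. -/
def Split (X : Set ℝ) : Prop :=
  ∀ 𝒰, OmegaCover X 𝒰 → ∃ 𝒱 𝒲 : Set (Set ℝ), 𝒱 ∪ 𝒲 = 𝒰 ∧ Disjoint 𝒱 𝒲 ∧
    (∃ 𝒱' ⊆ 𝒱, LargeCover X 𝒱') ∧ ∃ 𝒲' ⊆ 𝒲, LargeCover X 𝒲'

/-- `add(𝒮)` for the family `𝒮` of all sets of reals satisfying `Split(Ω, Λ)`. -/
noncomputable def addSplit : Cardinal.{0} :=
  sInf {κ | ∃ 𝓕 : Set (Set ℝ), #𝓕 = κ ∧ (∀ X ∈ 𝓕, Split X) ∧ ¬ Split (⋃₀ 𝓕)}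

/-- `B` is a base of the ultrafilter `U` on `ℕ`. -/
def IsUltrafilterBase (U : Ultrafilter ℕ) (B : Set (Set ℕ)) : Prop :=
  (∀ b ∈ B, b ∈ U) ∧ ∀ A ∈ U, ∃ b ∈ B, b ⊆ A

/-- The ultrafilter number `𝔲`: the least cardinality of a base of a nonprincipal ultrafilter
on `ℕ`. -/
noncomputable def ultrafilterNumber : Cardinal.{0} :=
  sInf {κ | ∃ (U : Ultrafilter ℕ) (B : Set (Set ℕ)), (∀ n, {n} ∉ U) ∧ IsUltrafilterBase U B ∧
    #B = κ}

/-! ### The ultrafilter number -/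

theorem exists_base : ∃ (U : Ultrafilter ℕ) (B : Set (Set ℕ)), (∀ n, {n} ∉ U) ∧
    IsUltrafilterBase U B ∧ #B = ultrafilterNumber := by
  have hne : {κ : Cardinal.{0} | ∃ (U : Ultrafilter ℕ) (B : Set (Set ℕ)), (∀ n, {n} ∉ U) ∧
      IsUltrafilterBase U B ∧ #B = κ}.Nonempty := by
    refine ⟨_, Filter.hyperfilter ℕ, {A | A ∈ Filter.hyperfilter ℕ}, fun n hn => ?_,
      ⟨fun b hb => hb, fun A hA => ⟨A, hA, subset_rfl⟩⟩, rfl⟩
    exact Filter.notMem_hyperfilter_of_finite (Set.finite_singleton n) hn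
  obtain ⟨U, B, h1, h2, h3⟩ := csInf_mem hne
  exact ⟨U, B, h1, h2, h3⟩

theorem infinite_of_mem {U : Ultrafilter ℕ} (hU : ∀ n, {n} ∉ U) {A : Set ℕ} (hA : A ∈ U) :
    A.Infinite := by
  intro hfin
  obtain ⟨n, _, hn⟩ := (Ultrafilter.finite_biUnion_mem_iff (f := U) (s := fun n : ℕ => {n})
    hfin).1 (by simpa using hA)
  exact hU n hn

/-- a nonprincipal ultrafilter has no countable base -/
theorem not_countable_base {U : Ultrafilter ℕ} (hU : ∀ n, {n} ∉ U) {B : Set (Set ℕ)}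
    (hB : IsUltrafilterBase U B) : ¬ B.Countable := by
  intro hc
  have h1 : (U : Filter ℕ).IsCountablyGenerated := by
    refine ⟨⟨B, hc, ?_⟩⟩
    apply le_antisymm
    · rw [Filter.le_generate_iff]
      exact fun b hb => hB.1 b hb
    · intro A hA
      obtain ⟨b, hb, hbA⟩ := hB.2 A hA
      exact Filter.mem_of_superset (Filter.mem_generate_of_mem hb) hbA
  obtain ⟨s, hs⟩ := (U : Filter ℕ).exists_antitone_basis
  have hsU : ∀ n, s n ∈ U := fun n => hs.1.mem_of_mem trivial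
  -- choose distinct points
  have h2 : ∀ n m : ℕ, ∃ k ∈ s n, m < k := fun n m => by
    obtain ⟨k, hk, hmk⟩ := (infinite_of_mem hU (hsU n)).exists_gt m
    exact ⟨k, hk, hmk⟩
  choose g hg1 hg2 using h2
  let x : ℕ → ℕ := fun n => Nat.rec (g 0 0) (fun n a => g (n + 1) a) n
  have hx : ∀ n, x n ∈ s n := by
    intro n
    cases n with
    | zero => exact hg1 0 0
    | succ n => exact hg1 (n + 1) (x n)
  have hmono : StrictMono x := strictMono_nat_of_lt_succ fun n => hg2 (n + 1) (x n)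
  let E : Set ℕ := {k | ∃ n, k = x (2 * n)}
  rcases U.mem_or_compl_mem E with hE | hE
  · obtain ⟨n, -, hn⟩ := hs.1.mem_iff.1 hE
    have h3 : x (2 * n + 1) ∈ s n := hs.2 (show n ≤ 2 * n + 1 by omega) (hx _)
    obtain ⟨k, hk⟩ := hn h3
    have hk' : 2 * n + 1 = 2 * k := hmono.injective hk
    omega
  · obtain ⟨n, -, hn⟩ := hs.1.mem_iff.1 hE
    have h3 : x (2 * n) ∈ s n := hs.2 (show n ≤ 2 * n by omega) (hx _)
    exact hn h3 ⟨n, rfl⟩

theorem aleph0_lt_ultrafilterNumber : ℵ₀ < ultrafilterNumber := by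
  obtain ⟨U, B, h1, h2, h3⟩ := exists_base
  rw [← h3, ← not_le, Cardinal.le_aleph0_iff_set_countable]
  exact not_countable_base h1 h2

theorem ultrafilterNumber_le {U : Ultrafilter ℕ} {B : Set (Set ℕ)} (hU : ∀ n, {n} ∉ U)
    (hB : IsUltrafilterBase U B) : ultrafilterNumber ≤ #B :=
  csInf_le' ⟨U, B, hU, hB, rfl⟩

/-- Fewer than `𝔲` sets all whose finite intersections are infinite can be split. -/
theorem exists_split {ι : Type} (A : ι → Set ℕ)
    (hA : ∀ F : Finset ι, {n | ∀ i ∈ F, n ∈ A i}.Infinite) (hι : #ι < ultrafilterNumber) :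
    ∃ E : Set ℕ, ∀ i, (A i ∩ E).Infinite ∧ (A i \ E).Infinite := by
  classical
  -- the filter generated by the sets and the cofinite sets
  let b : Finset ι × ℕ → Set ℕ := fun p => {n | p.2 ≤ n ∧ ∀ i ∈ p.1, n ∈ A i}
  have hb : ∀ p, (b p).Infinite := by
    intro p
    have h1 : {n | ∀ i ∈ p.1, n ∈ A i} \ {n | n < p.2} ⊆ b p := by
      rintro n ⟨h1, h2⟩
      exact ⟨not_lt.1 h2, h1⟩
    exact ((hA p.1).sdiff (Set.finite_lt_nat p.2)).mono h1
  by_contra hno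
  push Not at hno
  -- the upward closure is an ultrafilter
  have hsub : ∀ p q, b (p.1 ∪ q.1, max p.2 q.2) ⊆ b p ∩ b q := by
    rintro p q n ⟨h1, h2⟩
    exact ⟨⟨(le_max_left _ _).trans h1, fun i hi => h2 i (Finset.mem_union_left _ hi)⟩,
      ⟨(le_max_right _ _).trans h1, fun i hi => h2 i (Finset.mem_union_right _ hi)⟩⟩
  let f : Filter ℕ :=
    { sets := {S | ∃ p, b p ⊆ S}
      univ_sets := ⟨(∅, 0), subset_univ _⟩
      sets_of_superset := fun ⟨p, hp⟩ hST => ⟨p, hp.trans hST⟩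
      inter_sets := fun ⟨p, hp⟩ ⟨q, hq⟩ =>
        ⟨(p.1 ∪ q.1, max p.2 q.2), (hsub p q).trans (inter_subset_inter hp hq)⟩ }
  have hf : ∀ S, S ∈ f ↔ ∃ p, b p ⊆ S := fun S => Iff.rfl
  have hu : ∀ S, Sᶜ ∉ f ↔ S ∈ f := by
    intro S
    constructor
    · intro hS
      obtain ⟨i, hi⟩ := hno S
      by_cases h1 : (A i ∩ S).Infinite
      · have h2 : (A i \ S).Finite := hi h1
        obtain ⟨m, hm⟩ := h2.bddAbove
        refine ⟨({i}, m + 1), fun n hn => ?_⟩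
        by_contra hnS
        have := hm ⟨hn.2 i (Finset.mem_singleton_self i), hnS⟩
        have := hn.1
        omega
      · exfalso
        obtain ⟨m, hm⟩ := (Set.not_infinite.1 h1).bddAbove
        refine hS ⟨({i}, m + 1), fun n hn hnS => ?_⟩
        have := hm ⟨hn.2 i (Finset.mem_singleton_self i), hnS⟩
        have := hn.1
        omega
    · rintro ⟨p, hp⟩ ⟨q, hq⟩
      obtain ⟨n, hn⟩ := (hb (p.1 ∪ q.1, max p.2 q.2)).nonempty
      exact hq (hsub p q hn).2 (hp (hsub p q hn).1)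
  let U : Ultrafilter ℕ := Ultrafilter.ofComplNotMemIff f hu
  have hU : ∀ S, S ∈ U ↔ ∃ p, b p ⊆ S := fun S => Iff.rfl
  have h1 : ∀ n, {n} ∉ U := by
    rintro n ⟨p, hp⟩
    exact (hb p) ((Set.finite_singleton n).subset hp)
  have h2 : IsUltrafilterBase U (range b) :=
    ⟨by rintro _ ⟨p, rfl⟩; exact (hU _).2 ⟨p, subset_rfl⟩, fun S hS => by
      obtain ⟨p, hp⟩ := (hU _).1 hS
      exact ⟨b p, ⟨p, rfl⟩, hp⟩⟩
  have h3 := ultrafilterNumber_le h1 h2
  have h4 : #(range b) < ultrafilterNumber := by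
    refine (mk_range_le).trans_lt ?_
    rw [mk_prod, lift_id, lift_id, mk_nat]
    refine mul_lt_of_lt aleph0_lt_ultrafilterNumber.le ?_ aleph0_lt_ultrafilterNumber
    rcases finite_or_infinite ι with hfin | hinf
    · exact (mk_lt_aleph0).trans aleph0_lt_ultrafilterNumber
    · rwa [mk_finset_of_infinite]
  exact absurd h3 (not_le.2 h4)

/-! ### Small sets satisfy `Split(Ω, Λ)` -/

theorem sub_of_mem {X : Set ℝ} {𝒰 : Set (Set ℝ)} (h : OpenCover X 𝒰) {U : Set ℝ} (hU : U ∈ 𝒰) :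
    U ⊆ X := by
  obtain ⟨O, _, rfl⟩ := h.1 U hU
  exact inter_subset_left

/-- every open `ω`-cover of a set of reals contains a countable `ω`-cover -/
theorem exists_countable {X : Set ℝ} {𝒰 : Set (Set ℝ)} (h : OmegaCover X 𝒰) :
    ∃ 𝒱 ⊆ 𝒰, 𝒱.Countable ∧ ∀ F : Set ℝ, F.Finite → F ⊆ X → ∃ U ∈ 𝒱, F ⊆ U := by
  classical
  let T : Set (Set (Set ℝ)) := {t | t.Finite ∧ t ⊆ TopologicalSpace.countableBasis ℝ}
  have hT : T.Countable :=
    Set.countable_ofPred_finite_subset (TopologicalSpace.countable_countableBasis ℝ)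
  let good : Set (Set ℝ) → Prop := fun t => ∃ U ∈ 𝒰, X ∩ ⋃₀ t ⊆ U
  let W : Set (Set ℝ) → Set ℝ := fun t => if ht : good t then ht.choose else ∅
  have hW : ∀ t, good t → W t ∈ 𝒰 ∧ X ∩ ⋃₀ t ⊆ W t := by
    intro t ht
    simp only [W, ht, dite_true]
    exact ht.choose_spec
  refine ⟨W '' {t ∈ T | good t}, ?_, (hT.mono (sep_subset _ _)).image _, ?_⟩
  · rintro _ ⟨t, ht, rfl⟩
    exact (hW t ht.2).1
  · intro F hF hFX
    obtain ⟨U, hU, hFU⟩ := h.2 F hF hFX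
    obtain ⟨O, hO, rfl⟩ := h.1.1 U hU
    have h1 : ∀ x : ℝ, x ∈ F → ∃ v ∈ TopologicalSpace.countableBasis ℝ, x ∈ v ∧ v ⊆ O :=
      fun x hx => (TopologicalSpace.isBasis_countableBasis ℝ).exists_subset_of_mem_open
        (hFU hx).2 hO
    choose! v hv1 hv2 hv3 using h1
    have hgood : good (v '' F) := by
      refine ⟨X ∩ O, hU, inter_subset_inter_right _ ?_⟩
      rintro y ⟨_, ⟨x, hx, rfl⟩, hy⟩
      exact hv3 x hx hy
    refine ⟨W (v '' F), ⟨v '' F, ⟨⟨hF.image _, ?_⟩, hgood⟩, rfl⟩, fun x hx => ?_⟩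
    · rintro _ ⟨x, hx, rfl⟩
      exact hv1 x hx
    · exact (hW _ hgood).2 ⟨hFX hx, v x, ⟨x, hx, rfl⟩, hv2 x hx⟩

theorem infinite_members {X : Set ℝ} {𝒰 𝒱 : Set (Set ℝ)} (h : OmegaCover X 𝒰) (hV : 𝒱 ⊆ 𝒰)
    (h' : ∀ F : Set ℝ, F.Finite → F ⊆ X → ∃ U ∈ 𝒱, F ⊆ U) {F : Set ℝ} (hF : F.Finite)
    (hFX : F ⊆ X) : {U | U ∈ 𝒱 ∧ F ⊆ U}.Infinite := by
  intro hfin
  have h1 : ∀ U, U ∈ 𝒱 → ∃ x ∈ X, x ∉ U := by
    intro U hU
    by_contra hno
    push Not at hno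
    have : U = X := (sub_of_mem h.1 (hV hU)).antisymm hno
    exact h.1.2.2 (this ▸ hV hU)
  choose! x hx1 hx2 using h1
  obtain ⟨U, hU, hFU⟩ := h' (F ∪ x '' {U | U ∈ 𝒱 ∧ F ⊆ U}) (hF.union (hfin.image _)) (by
    rintro y (hy | ⟨U, hU, rfl⟩)
    · exact hFX hy
    · exact hx1 U hU.1)
  exact hx2 U hU (hFU (Or.inr ⟨U, ⟨hU, subset_union_left.trans hFU⟩, rfl⟩))

theorem split_of_small {X : Set ℝ} (hX : #X < ultrafilterNumber) : Split X := by
  intro 𝒰 h𝒰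
  obtain ⟨𝒱₀, hV, hVc, hω⟩ := exists_countable h𝒰
  have hinf : 𝒱₀.Infinite :=
    (infinite_members h𝒰 hV hω Set.finite_empty (empty_subset X)).mono fun U hU => hU.1
  have hc : Countable 𝒱₀ := hVc
  have hi : Infinite 𝒱₀ := hinf.to_subtype
  obtain ⟨e⟩ : Nonempty (ℕ ≃ 𝒱₀) := by
    obtain ⟨d⟩ := nonempty_denumerable 𝒱₀
    exact ⟨(Denumerable.eqv 𝒱₀).symm⟩
  obtain ⟨E, hE⟩ := exists_split (fun x : X => {n | x.1 ∈ (e n).1}) (fun F => by
    have h1 := infinite_members h𝒰 hV hω (F := Subtype.val '' (F : Set X))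
      (F.finite_toSet.image _) (by rintro _ ⟨x, _, rfl⟩; exact x.2)
    have h2 : {n | ∀ x ∈ F, n ∈ {n | (x : ℝ) ∈ (e n).1}} =
        (fun n => (e n).1) ⁻¹' {U | U ∈ 𝒱₀ ∧ Subtype.val '' (F : Set X) ⊆ U} := by
      ext n
      constructor
      · intro h
        refine ⟨(e n).2, ?_⟩
        rintro _ ⟨x, hx, rfl⟩
        exact h x hx
      · rintro ⟨_, h⟩ x hx
        exact h ⟨x, hx, rfl⟩
    rw [h2]
    refine h1.preimage ?_
    rintro U ⟨hU, _⟩
    exact ⟨e.symm ⟨U, hU⟩, by simp⟩) hX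
  have hsub : ∀ S : Set ℕ, (fun n => (e n).1) '' S ⊆ 𝒰 := by
    rintro S _ ⟨n, _, rfl⟩
    exact hV (e n).2
  have hinj : Function.Injective fun n => (e n).1 :=
    Subtype.val_injective.comp e.injective
  have hlarge : ∀ S : Set ℕ, (∀ x : X, ({n | x.1 ∈ (e n).1} ∩ S).Infinite) →
      LargeCover X ((fun n => (e n).1) '' S) := by
    intro S hS
    refine ⟨⟨fun U hU => h𝒰.1.1 U (hsub S hU), ?_, fun h => h𝒰.1.2.2 (hsub S h)⟩, ?_⟩
    · apply Subset.antisymm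
      · exact sUnion_subset fun U hU => sub_of_mem h𝒰.1 (hsub S hU)
      · intro x hx
        obtain ⟨n, hn1, hn2⟩ := (hS ⟨x, hx⟩).nonempty
        exact ⟨_, ⟨n, hn2, rfl⟩, hn1⟩
    · intro x hx
      refine ((hS ⟨x, hx⟩).image hinj.injOn).mono ?_
      rintro _ ⟨n, ⟨hn1, hn2⟩, rfl⟩
      exact ⟨⟨n, hn2, rfl⟩, hn1⟩
  refine ⟨(fun n => (e n).1) '' E, 𝒰 \ (fun n => (e n).1) '' E,
    union_sdiff_cancel (hsub E), disjoint_sdiff_right,
    ⟨_, subset_rfl, hlarge E fun x => (hE x).1⟩,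
    ⟨(fun n => (e n).1) '' Eᶜ, ?_, hlarge Eᶜ fun x => (hE x).2⟩⟩
  rintro _ ⟨n, hn, rfl⟩
  refine ⟨hsub Eᶜ ⟨n, hn, rfl⟩, ?_⟩
  rintro ⟨m, hm, hmn⟩
  exact hn (hinj hmn ▸ hm)

/-! ### A set of size `𝔲` which does not satisfy `Split(Ω, Λ)` -/

theorem exists_not_split : ∃ X : Set ℝ, #X ≤ ultrafilterNumber ∧ ¬ Split X := by
  classical
  obtain ⟨U, B, hU, hB, hBc⟩ := exists_base
  obtain ⟨f, -, hfc, hfi⟩ := Perfect.exists_nat_bool_injection
    (PerfectSpace.univ_perfect (α := ℝ)) univ_nonempty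
  have hemb : IsEmbedding f := (hfc.isClosedEmbedding hfi).isEmbedding
  -- the code of a set of natural numbers
  let code : Set ℕ → ℝ := fun A => f fun n => decide (n ∈ A)
  have hcode : ∀ A A', code A = code A' → A = A' := by
    intro A A' h
    ext n
    have := congrFun (hfi h) n
    simpa using this
  -- the base, closed under the removal of finite initial segments
  let B' : Set (Set ℕ) := range fun p : B × ℕ => p.1.1 \ {n | n < p.2}
  have hB' : ∀ A ∈ B', A ∈ U := by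
    rintro _ ⟨⟨b, m⟩, rfl⟩
    have h1 : {n | n < m}ᶜ ∈ U := by
      rw [Ultrafilter.compl_mem_iff_notMem]
      exact fun h => infinite_of_mem hU h (Set.finite_lt_nat m)
    exact Filter.inter_mem (hB.1 b.1 b.2) h1
  have hB'' : ∀ A ∈ U, ∃ b ∈ B', b ⊆ A := by
    intro A hA
    obtain ⟨b, hb, hbA⟩ := hB.2 A hA
    exact ⟨b \ {n | n < 0}, ⟨(⟨b, hb⟩, 0), rfl⟩, sdiff_subset.trans hbA⟩
  let X : Set ℝ := code '' B'
  have hXmem : ∀ x ∈ X, ∃ A ∈ U, x = code A := by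
    rintro _ ⟨A, hA, rfl⟩
    exact ⟨A, hB' A hA, rfl⟩
  refine ⟨X, ?_, ?_⟩
  · refine mk_image_le.trans (mk_range_le.trans ?_)
    rw [mk_prod, lift_id, lift_id, mk_nat, hBc]
    exact (mul_eq_left aleph0_lt_ultrafilterNumber.le aleph0_lt_ultrafilterNumber.le
      aleph0_ne_zero).le
  · intro hsplit
    let V : ℕ → Set ℝ := fun n => {x | x ∈ X ∧ ∃ A, n ∈ A ∧ x = code A}
    have hV : ∀ n A, code A ∈ V n → n ∈ A := by
      rintro n A ⟨_, A', hn, h⟩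
      rw [hcode A A' h]; exact hn
    have hω : OmegaCover X (range V) := by
      refine ⟨⟨?_, ?_, ?_⟩, ?_⟩
      · rintro _ ⟨n, rfl⟩
        have h1 : IsOpen {c : ℕ → Bool | c n = true} :=
          (isOpen_discrete ({true} : Set Bool)).preimage
            (continuous_apply (A := fun _ : ℕ => Bool) n)
        obtain ⟨O, hO, hOn⟩ := hemb.isInducing.isOpen_iff.1 h1
        refine ⟨O, hO, ?_⟩
        ext x
        constructor
        · rintro ⟨hx, A, hn, rfl⟩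
          refine ⟨hx, ?_⟩
          have : (fun m => decide (m ∈ A)) ∈ f ⁻¹' O := by
            rw [hOn]; simpa using hn
          exact this
        · rintro ⟨hx, hxO⟩
          obtain ⟨A, _, rfl⟩ := hXmem x hx
          refine ⟨hx, A, ?_, rfl⟩
          have : (fun m => decide (m ∈ A)) ∈ f ⁻¹' O := hxO
          rw [hOn] at this
          simpa using this
      · apply Subset.antisymm
        · rintro x ⟨_, ⟨n, rfl⟩, hx⟩
          exact hx.1
        · intro x hx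
          obtain ⟨A, hA, rfl⟩ := hXmem x hx
          obtain ⟨n, hn⟩ := (infinite_of_mem hU hA).nonempty
          exact ⟨_, ⟨n, rfl⟩, hx, A, hn, rfl⟩
      · rintro ⟨n, hn⟩
        have h1 : ({n} : Set ℕ)ᶜ ∈ U := by
          rw [Ultrafilter.compl_mem_iff_notMem]
          exact hU n
        obtain ⟨b, hb, hbn⟩ := hB'' _ h1
        have h2 : code b ∈ V n := by rw [hn]; exact ⟨b, hb, rfl⟩
        exact hbn (hV n b h2) rfl
      · intro F hF hFX
        have h1 : ∀ x : ℝ, x ∈ F → ∃ A ∈ U, x = code A := fun x hx => hXmem x (hFX hx)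
        choose! A hA1 hA2 using h1
        have h2 : (⋂ x ∈ F, A x) ∈ U := (Filter.biInter_mem hF).2 hA1
        obtain ⟨n, hn⟩ := (infinite_of_mem hU h2).nonempty
        refine ⟨_, ⟨n, rfl⟩, fun x hx => ⟨hFX hx, A x, mem_iInter₂.1 hn x hx, hA2 x hx⟩⟩
    obtain ⟨𝒱, 𝒲, huni, hdisj, ⟨𝒱', hV', hL'⟩, 𝒲', hW', hL''⟩ := hsplit _ hω
    have key : ∀ S T : Set (Set ℝ), Disjoint S T → T ⊆ range V → {n | V n ∈ S} ∈ U →
        ∀ T' ⊆ T, ¬ LargeCover X T' := by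
      intro S T hST hT hE T' hT' hL
      obtain ⟨b, hb, hbE⟩ := hB'' _ hE
      have h1 : code b ∈ X := ⟨b, hb, rfl⟩
      rw [← hL.1.2.1] at h1
      obtain ⟨W, hW, hbW⟩ := h1
      obtain ⟨n, rfl⟩ := hT (hT' hW)
      exact Set.disjoint_left.1 hST (hbE (hV n b hbW)) (hT' hW)
    rcases U.mem_or_compl_mem {n | V n ∈ 𝒱} with hE | hE
    · exact key 𝒱 𝒲 hdisj (huni ▸ subset_union_right) hE 𝒲' hW' hL''
    · refine key 𝒲 𝒱 hdisj.symm (huni ▸ subset_union_left) ?_ 𝒱' hV' hL'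
      refine Filter.mem_of_superset hE fun n hn => ?_
      have : V n ∈ 𝒱 ∪ 𝒲 := huni ▸ ⟨n, rfl⟩
      exact this.resolve_left hn

/-! ### The bound -/

/-- There is a family of at most `cf 𝔲` sets of reals satisfying `Split(Ω, Λ)` whose union does not
satisfy it. Hence `add(𝒮) ≤ cf 𝔲 ≤ 𝔲`. -/
theorem result :
    (∃ 𝓕 : Set (Set ℝ), #𝓕 ≤ ultrafilterNumber.ord.cof ∧ (∀ X ∈ 𝓕, Split X) ∧
      ¬ Split (⋃₀ 𝓕)) ∧
    addSplit ≤ ultrafilterNumber.ord.cof ∧ ultrafilterNumber.ord.cof ≤ ultrafilterNumber := by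
  have hmain : ∃ 𝓕 : Set (Set ℝ), #𝓕 ≤ ultrafilterNumber.ord.cof ∧ (∀ X ∈ 𝓕, Split X) ∧
      ¬ Split (⋃₀ 𝓕) := by
    obtain ⟨X, hX, hns⟩ := exists_not_split
    have hXne : Nonempty (X ↪ ultrafilterNumber.ord.ToType) := by
      rw [← Cardinal.le_def, mk_toType, card_ord]
      exact hX
    obtain ⟨g⟩ := hXne
    obtain ⟨S, hS, hSc⟩ := Order.exists_cof_eq ultrafilterNumber.ord.ToType
    rw [Ordinal.cof_toType] at hSc
    let piece : ultrafilterNumber.ord.ToType → Set ℝ := fun a => {x | ∃ h : x ∈ X, g ⟨x, h⟩ ≤ a}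
    have hcard : ∀ a, #(piece a) < ultrafilterNumber := by
      intro a
      have h1 : #(Iic a) < ultrafilterNumber := by
        have := mk_Iic_lt a (by rw [mk_toType, card_ord, Ordinal.type_toType])
          (by rw [mk_toType, card_ord]; exact aleph0_lt_ultrafilterNumber.le)
        rwa [mk_toType, card_ord] at this
      refine (mk_le_of_injective (f := fun x : piece a => (⟨g ⟨x.1, x.2.1⟩, x.2.2⟩ : Iic a))
        ?_).trans_lt h1
      intro x y hxy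
      have h2 : g ⟨x.1, x.2.1⟩ = g ⟨y.1, y.2.1⟩ := congrArg Subtype.val hxy
      have h3 := g.injective h2
      exact Subtype.ext (congrArg (fun z : X => z.1) h3)
    refine ⟨piece '' S, (mk_image_le).trans hSc.le, ?_, ?_⟩
    · rintro _ ⟨a, _, rfl⟩
      exact split_of_small (hcard a)
    · have h1 : ⋃₀ (piece '' S) = X := by
        apply Subset.antisymm
        · rintro x ⟨_, ⟨a, _, rfl⟩, hx, _⟩
          exact hx
        · intro x hx
          obtain ⟨a, ha, hxa⟩ := hS (g ⟨x, hx⟩)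
          exact ⟨_, ⟨a, ha, rfl⟩, hx, hxa⟩
      rwa [h1]
  refine ⟨hmain, ?_, ?_⟩
  · obtain ⟨𝓕, h1, h2, h3⟩ := hmain
    have h4 : addSplit ≤ #𝓕 := csInf_le' ⟨𝓕, rfl, h2, h3⟩
    exact h4.trans h1
  · have := Ordinal.cof_le_card ultrafilterNumber.ord
    rwa [card_ord] at this

end Pool.Agent.Results.MP_312f56_gt.AddSplitUltrafilter
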